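import Mathlib
import Pool.Agent.MP_17402e_an.Satur

/-!
Ultraproducts over countably incomplete aleph-good ultrafilters are aleph-injective as soon as
they are script-L-infinity spaces.
-/

set_option autoImplicit false

universe u

namespace Pool.Agent.Results.MP_17402e_an.GoodUltra

open Pool.Agent.MP_17402e_an

theorem result (𝕜 : Type) [RCLike 𝕜] (ℵ : Cardinal.{u}) (hℵ : Cardinal.aleph0 ≤ ℵ)
    (I : Type u) (U : Ultrafilter I) (hinc : CountablyIncomplete U) (hgood : Good ℵ U)
    (X : I → Type u) [∀ i, NormedAddCommGroup (X i)] [∀ i, NormedSpace 𝕜 (X i)]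
    [∀ i, CompleteSpace (X i)] (hL : IsLInfty 𝕜 (Ultraproduct 𝕜 U X)) :
    AlephInjective 𝕜 ℵ (Ultraproduct 𝕜 U X) := by
  classical
  intro Z _ _ _ hZ Y hY t
  obtain ⟨M, hM, hloc⟩ := local_ext hL Y t
  obtain ⟨D, hD, hDc⟩ : ∃ D : Set Z, Dense D ∧ Cardinal.mk D = densChar Z :=
    csInf_mem (s := {c | ∃ D : Set Z, Dense D ∧ Cardinal.mk D = c})
      ⟨_, Set.univ, dense_univ, rfl⟩
  have hYne : (Y : Set Z).Nonempty := ⟨0, Y.zero_mem⟩
  have happ : ∀ z : Z, ∃ y : Y, dist z y ≤ 2 * Metric.infDist z (Y : Set Z) := by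
    intro z
    rcases (Metric.infDist_nonneg (x := z) (s := (Y : Set Z))).eq_or_lt with h | h
    · exact ⟨⟨z, (hY.mem_iff_infDist_zero hYne).mpr h.symm⟩, by simp [← h]⟩
    · obtain ⟨y, hy, hy'⟩ := (Metric.infDist_lt_iff hYne).mp
        (show Metric.infDist z (Y : Set Z) < 2 * Metric.infDist z (Y : Set Z) by linarith)
      exact ⟨⟨y, hy⟩, hy'.le⟩
  choose π hπ using happ
  have hπd : DenseRange (fun d : D => π d) := by
    rw [Metric.denseRange_iff]
    intro y ε hε
    obtain ⟨d, hd, hyd⟩ := Metric.dense_iff.mp hD (y : Z) (ε / 3) (by positivity)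
    refine ⟨⟨d, hyd⟩, ?_⟩
    rw [Metric.mem_ball] at hd
    have h1 : Metric.infDist d (Y : Set Z) ≤ dist d (y : Z) := Metric.infDist_le_dist_of_mem y.2
    have h2 := hπ d
    have h3 := dist_triangle (y : Z) d (π d)
    rw [dist_comm (y : Z) d] at h3
    show dist (y : Z) (π d : Z) < ε
    linarith
  have fin : ∀ T : Z →L[𝕜] Ultraproduct 𝕜 U X, (∀ d : D, T (π d) = t (π d)) →
      ∀ y : Y, T y = t y := by
    intro T hT y
    have := hπd.equalizer (g := fun y : Y => T y) (h := fun y : Y => t y)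
      (T.continuous.comp continuous_subtype_val) t.continuous (funext hT)
    exact congrFun this y
  cases finite_or_infinite D with
  | inl hfin =>
    have : Fintype D := Fintype.ofFinite D
    obtain ⟨R, -, hR⟩ := hloc (Finset.univ.image (fun d : D => π d))
    exact ⟨R, fin R (fun d => hR _ (Finset.mem_image_of_mem _ (Finset.mem_univ d)))⟩
  | inr hinf =>
    set κ : Cardinal.{u} := Cardinal.mk (D ⊕ D) with hκ
    have hκlt : κ < ℵ := by
      rw [hκ, Cardinal.mk_sum, Cardinal.lift_id, hDc]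
      exact Cardinal.add_lt_of_lt hℵ hZ hZ
    obtain ⟨φ⟩ : Nonempty (κ.out ≃ (D ⊕ D)) := Cardinal.eq.mp (Cardinal.mk_out κ)
    have : Infinite κ.out := φ.infinite_iff.mpr inferInstance
    let x : κ.out → Z := fun k => Sum.elim (fun d : D => (d : Z)) (fun d : D => (π d : Z)) (φ k)
    let y : κ.out → Y := fun k => Sum.elim (fun _ : D => 0) (fun d : D => π d) (φ k)
    obtain ⟨e, he1, he2⟩ := saturation (𝕜 := 𝕜) U hinc (hgood κ hκlt) x M hM
      {k | (y k : Z) = x k} (fun k => t (y k)) (by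
        intro s
        obtain ⟨R, hR1, hR2⟩ := hloc (s.image y)
        refine ⟨fun k => R (x k), fun c => ?_, fun k hk hkS => ?_⟩
        · have := hR1 (∑ k ∈ s, c k • x k)
          simpa only [map_sum, map_smul] using this
        · have hkS' : (y k : Z) = x k := hkS
          show R (x k) = t (y k)
          rw [← hkS']
          exact hR2 _ (Finset.mem_image_of_mem _ hk))
    have hdense : DenseRange (Finsupp.linearCombination 𝕜 x) := by
      apply hD.mono
      intro d hd
      refine ⟨Finsupp.single (φ.symm (Sum.inl ⟨d, hd⟩)) 1, ?_⟩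
      simp [x]
    have hnorm : ∃ C, ∀ c : κ.out →₀ 𝕜, ‖Finsupp.linearCombination 𝕜 e c‖
        ≤ C * ‖Finsupp.linearCombination 𝕜 x c‖ := ⟨M, fun c => he1 c.support c⟩
    refine ⟨(Finsupp.linearCombination 𝕜 e).extendOfNorm (Finsupp.linearCombination 𝕜 x),
      fin _ (fun d => ?_)⟩
    have h1 := LinearMap.extendOfNorm_eq hdense hnorm (Finsupp.single (φ.symm (Sum.inr d)) 1)
    have h2 := he2 (φ.symm (Sum.inr d)) (by simp [x, y])
    simp only [Finsupp.linearCombination_single, one_smul] at h1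
    rw [h2] at h1
    simpa [x, y] using h1

end Pool.Agent.Results.MP_17402e_an.GoodUltra
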